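import Mathlib

/-!
# Slicing a convex body by parallel lines and comparing with its boundary
-/

set_option autoImplicit false

namespace Pool.Agent.V11188.EB

open MeasureTheory Set
open scoped ENNReal InnerProductSpace MeasureTheory

set_option linter.unusedSectionVars false

variable {V : Type*} [NormedAddCommGroup V] [InnerProductSpace ℝ V] [FiniteDimensional ℝ V]
  [MeasurableSpace V] [BorelSpace V]

/-- the hyperplane orthogonal to `θ` -/
noncomputable abbrev Wo (θ : V) : Submodule ℝ V := (Submodule.span ℝ {θ})ᗮ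

/-- splitting along `θ` -/
noncomputable def em (θ : V) (q : ℝ × Wo θ) : V := q.1 • θ + (q.2 : V)

/-- the inverse of the splitting -/
noncomputable def me (θ : V) (y : V) : ℝ × Wo θ := (⟪θ, y⟫_ℝ, (Wo θ).orthogonalProjectionOnto y)

theorem em_cont (θ : V) : Continuous (em θ) := by
  unfold em; fun_prop

theorem me_cont (θ : V) : Continuous (me θ) := by
  unfold me; fun_prop

theorem me_em (θ : V) (hθ : ‖θ‖ = 1) (q : ℝ × Wo θ) : me θ (em θ q) = q := by
  unfold me em
  have h1 : ⟪θ, (q.2 : V)⟫_ℝ = 0 := by
    have := q.2.2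
    rw [Submodule.mem_orthogonal_singleton_iff_inner_right] at this
    exact this
  have h2 : (Wo θ).orthogonalProjectionOnto θ = 0 :=
    Submodule.orthogonalProjectionOnto_orthogonalComplement_singleton_eq_zero θ
  ext
  · simp only [inner_add_right, inner_smul_right, real_inner_self_eq_norm_sq, hθ, h1]
    ring
  · simp only [map_add, map_smul, h2, smul_zero, zero_add,
      Submodule.orthogonalProjectionOnto_mem_subspace_eq_self]

theorem em_me (θ : V) (hθ : ‖θ‖ = 1) (y : V) : em θ (me θ y) = y := by
  unfold me em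
  have h1 := Submodule.starProjection_add_starProjection_orthogonal (K := Submodule.span ℝ {θ}) y
  have h2 : (Submodule.span ℝ {θ}).starProjection y = ⟪θ, y⟫_ℝ • θ := by
    rw [Submodule.starProjection_unit_singleton ℝ hθ]
  rw [h2] at h1
  exact h1

theorem mp_em (θ : V) (hθ : ‖θ‖ = 1) :
    MeasurePreserving (em θ) ((volume : Measure ℝ).prod (volume : Measure (Wo θ))) volume := by
  have h1 := Submodule.measurePreserving_measurableEquivProd (V := V) (P := V)
    (Submodule.span ℝ {θ}) 0
  rw [InnerProductSpace.euclideanHausdorffMeasure_eq_volume] at h1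
  have h2 := h1.symm
  have h3 : MeasurePreserving (LinearIsometryEquiv.toSpanUnitSingleton (𝕜 := ℝ) θ hθ)
      (volume : Measure ℝ) volume := LinearIsometryEquiv.measurePreserving _
  have h4 := h3.prod (MeasurePreserving.id (volume : Measure (Wo θ)))
  have h5 := h2.comp h4
  have h6 : em θ = (⇑((Submodule.span ℝ {θ}).measurableEquivProd (0 : V)).symm ∘
      Prod.map (⇑(LinearIsometryEquiv.toSpanUnitSingleton (𝕜 := ℝ) θ hθ)) id) := by
    funext q
    unfold em
    simp [Submodule.measurableEquivProd_symm_apply]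
  rw [h6]
  exact h5

/-- upper end of the fibres -/
noncomputable def tp {W : Type*} (K : Set (ℝ × W)) (w : W) : ℝ := sSup {t | (t, w) ∈ K}

/-- lower end of the fibres -/
noncomputable def bt {W : Type*} (K : Set (ℝ × W)) (w : W) : ℝ := sInf {t | (t, w) ∈ K}

section fib
variable {W : Type*} [TopologicalSpace W] [T2Space W]

theorem fib_compact {K : Set (ℝ × W)} (hK : IsCompact K) (w : W) :
    IsCompact {t : ℝ | (t, w) ∈ K} := by
  have h1 : {t : ℝ | (t, w) ∈ K} = Prod.fst '' (K ∩ {q | q.2 = w}) := by
    ext t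
    constructor
    · intro ht
      exact ⟨(t, w), ⟨ht, rfl⟩, rfl⟩
    · rintro ⟨⟨s, v⟩, ⟨h1, h2⟩, rfl⟩
      simp only [mem_ofPred_eq] at h2
      subst h2
      exact h1
  rw [h1]
  exact (hK.inter_right (isClosed_eq continuous_snd continuous_const)).image continuous_fst

theorem tp_mem {K : Set (ℝ × W)} (hK : IsCompact K) {w : W} (hw : ∃ t, (t, w) ∈ K) :
    (tp K w, w) ∈ K := (fib_compact hK w).sSup_mem hw

theorem bt_mem {K : Set (ℝ × W)} (hK : IsCompact K) {w : W} (hw : ∃ t, (t, w) ∈ K) :
    (bt K w, w) ∈ K := (fib_compact hK w).sInf_mem hw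

theorem le_tp {K : Set (ℝ × W)} (hK : IsCompact K) {w : W} {t : ℝ} (ht : (t, w) ∈ K) :
    t ≤ tp K w := le_csSup (fib_compact hK w).bddAbove ht

theorem bt_le {K : Set (ℝ × W)} (hK : IsCompact K) {w : W} {t : ℝ} (ht : (t, w) ∈ K) :
    bt K w ≤ t := csInf_le (fib_compact hK w).bddBelow ht

variable [MeasurableSpace W] [BorelSpace W]

theorem tp_meas {K : Set (ℝ × W)} (hK : IsCompact K) : Measurable (tp K) := by
  apply measurable_of_Ici
  intro c
  have hD : MeasurableSet {w : W | ∃ t, (t, w) ∈ K} := by
    have h1 : {w : W | ∃ t, (t, w) ∈ K} = Prod.snd '' K := by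
      ext w; simp
    rw [h1]
    exact (hK.image continuous_snd).isClosed.measurableSet
  have hE : MeasurableSet (Prod.snd '' (K ∩ {q : ℝ × W | c ≤ q.1})) :=
    ((hK.inter_right (isClosed_le continuous_const continuous_fst)).image
      continuous_snd).isClosed.measurableSet
  by_cases hc : c ≤ 0
  · have h2 : tp K ⁻¹' Ici c = (Prod.snd '' (K ∩ {q : ℝ × W | c ≤ q.1})) ∪
        {w : W | ∃ t, (t, w) ∈ K}ᶜ := by
      ext w
      simp only [mem_preimage, mem_Ici, mem_union, mem_image, mem_inter_iff, mem_ofPred_eq,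
        mem_compl_iff, Prod.exists]
      constructor
      · intro h
        by_cases hw : ∃ t, (t, w) ∈ K
        · left; exact ⟨tp K w, w, ⟨tp_mem hK hw, h⟩, rfl⟩
        · right; exact hw
      · rintro (⟨t, v, ⟨h1, h2⟩, rfl⟩ | h)
        · exact h2.trans (le_tp hK h1)
        · have : {t : ℝ | (t, w) ∈ K} = ∅ := by
            rw [Set.eq_empty_iff_forall_notMem]
            intro t ht
            exact h ⟨t, ht⟩
          unfold tp
          rw [this, Real.sSup_empty]
          exact hc
    rw [h2]
    exact hE.union hD.compl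
  · have h2 : tp K ⁻¹' Ici c = Prod.snd '' (K ∩ {q : ℝ × W | c ≤ q.1}) := by
      ext w
      simp only [mem_preimage, mem_Ici, mem_image, mem_inter_iff, mem_ofPred_eq, Prod.exists]
      constructor
      · intro h
        by_cases hw : ∃ t, (t, w) ∈ K
        · exact ⟨tp K w, w, ⟨tp_mem hK hw, h⟩, rfl⟩
        · exfalso
          have : {t : ℝ | (t, w) ∈ K} = ∅ := by
            rw [Set.eq_empty_iff_forall_notMem]
            intro t ht
            exact hw ⟨t, ht⟩
          unfold tp at h
          rw [this, Real.sSup_empty] at h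
          exact hc h
      · rintro ⟨t, v, ⟨h1, h2⟩, rfl⟩
        exact h2.trans (le_tp hK h1)
    rw [h2]
    exact hE

theorem bt_meas {K : Set (ℝ × W)} (hK : IsCompact K) : Measurable (bt K) := by
  have h1 : IsCompact ((fun q : ℝ × W => (-q.1, q.2)) '' K) := hK.image (by fun_prop)
  have h2 : bt K = fun w => -tp ((fun q : ℝ × W => (-q.1, q.2)) '' K) w := by
    funext w
    unfold bt tp
    rw [← Real.sInf_neg]
    congr 1
    ext t
    simp only [mem_ofPred_eq, Set.mem_neg, mem_image, Prod.mk.injEq, Prod.exists]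
    constructor
    · intro h
      exact ⟨t, w, h, rfl, rfl⟩
    · rintro ⟨s, v, h, h3, rfl⟩
      have : s = t := neg_injective h3
      rwa [← this]
  rw [h2]
  exact (tp_meas h1).neg

end fib

/-- the hyperplane is parametrised by a piece of the boundary -/
theorem graph_le (m : ℕ) (θ : V) (hm : Module.finrank ℝ (Wo θ) = m) (D : Set (Wo θ))
    (g : Wo θ → V) (hg : Measurable g) (U : Set V) (hU : MeasurableSet U)
    (h1 : ∀ w ∈ D, g w ∈ U) (h2 : ∀ w ∈ D, (Wo θ).orthogonalProjectionOnto (g w) = w)
    (h3 : ∀ y ∈ U, g ((Wo θ).orthogonalProjectionOnto y) = y) (f : V → ℝ≥0∞) (hf : Measurable f) :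
    ∫⁻ w in D, f (g w) ≤ ∫⁻ y in U, f y ∂(Measure.euclideanHausdorffMeasure m : Measure V) := by
  set μ : Measure V := Measure.euclideanHausdorffMeasure m with hμ
  set P : V → Wo θ := fun y => (Wo θ).orthogonalProjectionOnto y with hP
  have hPm : Measurable P := (Wo θ).orthogonalProjectionOnto.continuous.measurable
  have e1 : ∫⁻ y in U, f y ∂μ = ∫⁻ w, f (g w) ∂((μ.restrict U).map P) := by
    rw [lintegral_map (f := fun w => f (g w)) (hf.comp hg) hPm]
    refine setLIntegral_congr_fun hU fun y hy => ?_
    simp only [hP]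
    rw [h3 y hy]
  rw [e1]
  apply lintegral_mono' _ le_rfl
  rw [Measure.le_iff]
  intro E hE
  rw [Measure.restrict_apply hE, Measure.map_apply hPm hE, Measure.restrict_apply (hPm hE)]
  have hsub : E ∩ D ⊆ P '' (P ⁻¹' E ∩ U) := by
    rintro w ⟨hw1, hw2⟩
    exact ⟨g w, ⟨by rw [mem_preimage, show P (g w) = w from h2 w hw2]; exact hw1, h1 w hw2⟩, h2 w hw2⟩
  refine (measure_mono hsub).trans ?_
  have e2 : (volume : Measure (Wo θ)) = Measure.euclideanHausdorffMeasure m := by
    rw [← hm, InnerProductSpace.euclideanHausdorffMeasure_eq_volume]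
  rw [e2, hμ, Measure.euclideanHausdorffMeasure_def, Measure.euclideanHausdorffMeasure_def]
  rw [Measure.smul_apply, Measure.smul_apply]
  have h4 : LipschitzWith 1 P := (Wo θ).lipschitzWith_orthogonalProjectionOnto
  have h5 := h4.hausdorffMeasure_image_le (d := (m : ℝ)) (by positivity) (P ⁻¹' E ∩ U)
  rw [ENNReal.coe_one, ENNReal.one_rpow, one_mul] at h5
  gcongr

/-- **Slicing.** -/
theorem slice_le (m : ℕ) (hm : Module.finrank ℝ V = m + 1) (θ : V) (hθ : ‖θ‖ = 1) (C : Set V)
    (hC : IsCompact C) (hc : Convex ℝ C) (F f : V → ℝ≥0∞) (hF : Measurable F) (hf : Measurable f)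
    (H : ∀ (w : V) (a b : ℝ), a < b →
      ∫⁻ t in Icc a b, F (t • θ + w) ≤ f (a • θ + w) + f (b • θ + w)) :
    ∫⁻ z in C, F z ≤
      ∫⁻ y in frontier C, f y ∂(Measure.euclideanHausdorffMeasure m : Measure V) := by
  have hθ0 : θ ≠ 0 := by rintro rfl; simp at hθ
  have hmW : Module.finrank ℝ (Wo θ) = m := by
    have h1 := (Submodule.span ℝ {θ}).finrank_add_finrank_orthogonal
    rw [finrank_span_singleton hθ0, hm] at h1
    show Module.finrank ℝ ((Submodule.span ℝ {θ})ᗮ : Submodule ℝ V) = m
    omega
  set K : Set (ℝ × Wo θ) := em θ ⁻¹' C with hK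
  have hKc : IsCompact K := by
    have : K = me θ '' C := by
      ext q
      constructor
      · intro hq
        exact ⟨em θ q, hq, me_em θ hθ q⟩
      · rintro ⟨y, hy, rfl⟩
        show em θ (me θ y) ∈ C
        rw [em_me θ hθ]
        exact hy
    rw [this]
    exact hC.image (me_cont θ)
  set D : Set (Wo θ) := {w | bt K w < tp K w} with hD
  have hDm : MeasurableSet D := measurableSet_lt (bt_meas hKc) (tp_meas hKc)
  have hDne : ∀ w ∈ D, ∃ t, (t, w) ∈ K := by
    intro w hw
    by_contra hcon
    have : {t : ℝ | (t, w) ∈ K} = ∅ := by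
      rw [Set.eq_empty_iff_forall_notMem]
      intro t ht
      exact hcon ⟨t, ht⟩
    simp only [hD, mem_ofPred_eq, bt, tp, this, Real.sSup_empty, Real.sInf_empty, lt_irrefl] at hw
  have hKconv : ∀ w, ∀ s t r : ℝ, (s, w) ∈ K → (t, w) ∈ K → s ≤ r → r ≤ t → (r, w) ∈ K := by
    intro w s t r hs ht hsr hrt
    rcases hsr.eq_or_lt with h | h
    · rw [← h]; exact hs
    have hst : 0 < t - s := by linarith
    have h1 := hc hs ht (a := (t - r) / (t - s)) (b := (r - s) / (t - s))
      (div_nonneg (by linarith) hst.le) (div_nonneg (by linarith) hst.le) (by field_simp; ring)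
    have e : ((t - r) / (t - s)) • em θ (s, w) + ((r - s) / (t - s)) • em θ (t, w) = em θ (r, w) := by
      unfold em
      simp only
      rw [smul_add, smul_add, smul_smul, smul_smul]
      have e1 : (t - r) / (t - s) * s + (r - s) / (t - s) * t = r := by field_simp; ring
      have e2 : (t - r) / (t - s) + (r - s) / (t - s) = 1 := by field_simp; ring
      calc _ = ((t - r) / (t - s) * s + (r - s) / (t - s) * t) • θ +
            ((t - r) / (t - s) + (r - s) / (t - s)) • (w : V) := by
              rw [add_smul, add_smul]; abel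
        _ = _ := by rw [e1, e2, one_smul]
    rw [e] at h1
    exact h1
  set P : V → Wo θ := fun y => (Wo θ).orthogonalProjectionOnto y with hP
  have hPm : Measurable P := (Wo θ).orthogonalProjectionOnto.continuous.measurable
  set gt : Wo θ → V := fun w => em θ (tp K w, w) with hgt
  set gb : Wo θ → V := fun w => em θ (bt K w, w) with hgb
  have hgtm : Measurable gt := (em_cont θ).measurable.comp ((tp_meas hKc).prodMk measurable_id)
  have hgbm : Measurable gb := (em_cont θ).measurable.comp ((bt_meas hKc).prodMk measurable_id)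
  set U : Set V := {y | P y ∈ D ∧ gt (P y) = y} with hU
  set L : Set V := {y | P y ∈ D ∧ gb (P y) = y} with hL
  have hUm : MeasurableSet U := (hPm hDm).inter (measurableSet_eq_fun (hgtm.comp hPm) measurable_id)
  have hLm : MeasurableSet L := (hPm hDm).inter (measurableSet_eq_fun (hgbm.comp hPm) measurable_id)
  have hPe : ∀ t w, P (em θ (t, w)) = w := fun t w => congrArg Prod.snd (me_em θ hθ (t, w))
  have hIe : ∀ t w, ⟪θ, em θ (t, w)⟫_ℝ = t := fun t w => congrArg Prod.fst (me_em θ hθ (t, w))
  -- the two graphs are disjoint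
  have hdisj : Disjoint U L := by
    rw [Set.disjoint_left]
    rintro y ⟨h1, h2⟩ ⟨_, h3⟩
    have h4 : gt (P y) = gb (P y) := h2.trans h3.symm
    have h5 := congrArg (fun z => ⟪θ, z⟫_ℝ) h4
    simp only [hgt, hgb, hIe] at h5
    have h6 : bt K (P y) < tp K (P y) := h1
    exact h6.ne h5.symm
  -- and contained in the boundary
  have hfr : U ∪ L ⊆ frontier C := by
    have hint : ∀ t w, em θ (t, w) ∈ interior C → ∃ δ > 0, ∀ s, |s - t| < δ → (s, w) ∈ K := by
      intro t w h
      have h1 : Continuous (fun s : ℝ => em θ (s, w)) :=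
        (em_cont θ).comp (by fun_prop)
      have h2 : (fun s : ℝ => em θ (s, w)) ⁻¹' interior C ∈ nhds t :=
        h1.continuousAt.preimage_mem_nhds (isOpen_interior.mem_nhds h)
      obtain ⟨δ, hδ, h3⟩ := Metric.mem_nhds_iff.1 h2
      refine ⟨δ, hδ, fun s hs => ?_⟩
      have h4 : em θ (s, w) ∈ interior C := h3 (by rwa [Metric.mem_ball, Real.dist_eq])
      have h5 : em θ (s, w) ∈ C := interior_subset h4
      exact h5
    rintro y (⟨h1, h2⟩ | ⟨h1, h2⟩)
    · have hm1 : y ∈ C := by rw [← h2]; exact tp_mem hKc (hDne _ h1)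
      refine ⟨subset_closure hm1, fun h3 => ?_⟩
      rw [← h2] at h3
      obtain ⟨δ, hδ, h4⟩ := hint _ _ h3
      have h5 := le_tp hKc (h4 (tp K (P y) + δ / 2) (by
        rw [add_sub_cancel_left, abs_of_pos (by positivity)]; linarith))
      linarith
    · have hm1 : y ∈ C := by rw [← h2]; exact bt_mem hKc (hDne _ h1)
      refine ⟨subset_closure hm1, fun h3 => ?_⟩
      rw [← h2] at h3
      obtain ⟨δ, hδ, h4⟩ := hint _ _ h3
      have h5 := bt_le hKc (h4 (bt K (P y) - δ / 2) (by
        rw [sub_sub_cancel_left, abs_neg, abs_of_pos (by positivity)]; linarith))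
      linarith
  -- the boundary integral
  have hbd : ∫⁻ w in D, (f (gb w) + f (gt w)) ≤
      ∫⁻ y in frontier C, f y ∂(Measure.euclideanHausdorffMeasure m : Measure V) := by
    rw [lintegral_add_left (f := fun w => f (gb w)) (hf.comp hgbm)]
    have h1 := graph_le m θ hmW D gb hgbm L hLm
      (fun w hw => ⟨by rw [hgb]; simp only [hPe]; exact hw, by rw [hgb]; simp only [hPe]⟩)
      (fun w _ => hPe _ _) (fun y hy => hy.2) f hf
    have h2 := graph_le m θ hmW D gt hgtm U hUm
      (fun w hw => ⟨by rw [hgt]; simp only [hPe]; exact hw, by rw [hgt]; simp only [hPe]⟩)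
      (fun w _ => hPe _ _) (fun y hy => hy.2) f hf
    refine (add_le_add h1 h2).trans ?_
    rw [add_comm, ← lintegral_union hLm hdisj]
    exact lintegral_mono_set hfr
  refine le_trans ?_ hbd
  -- the volume integral
  have hCm : MeasurableSet C := hC.isClosed.measurableSet
  rw [← lintegral_indicator hCm, ← (mp_em θ hθ).lintegral_comp (hF.indicator hCm),
    lintegral_prod_symm (fun q => C.indicator F (em θ q))
      ((hF.indicator hCm).comp (em_cont θ).measurable).aemeasurable,
    ← lintegral_indicator hDm]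
  refine lintegral_mono fun w => ?_
  by_cases hw : w ∈ D
  · rw [indicator_of_mem hw]
    have h1 : ∀ t, C.indicator F (em θ (t, w)) ≤ (Icc (bt K w) (tp K w)).indicator
        (fun t => F (t • θ + (w : V))) t := by
      intro t
      by_cases ht : em θ (t, w) ∈ C
      · rw [indicator_of_mem ht, indicator_of_mem]
        · exact le_rfl
        · exact ⟨bt_le hKc ht, le_tp hKc ht⟩
      · rw [indicator_of_notMem ht]
        exact zero_le
    refine (lintegral_mono h1).trans ?_
    rw [lintegral_indicator measurableSet_Icc]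
    exact H w _ _ hw
  · rw [indicator_of_notMem hw, nonpos_iff_eq_zero]
    have h1 : ∀ t, t ≠ bt K w → C.indicator F (em θ (t, w)) = 0 := by
      intro t ht
      rw [indicator_of_notMem]
      intro hcon
      have h2 := bt_le hKc (w := w) (t := t) hcon
      have h3 := le_tp hKc (w := w) (t := t) hcon
      simp only [hD, mem_ofPred_eq, not_lt] at hw
      exact ht (le_antisymm (h3.trans hw) h2)
    rw [← lintegral_zero (μ := (volume : Measure ℝ))]
    apply lintegral_congr_ae
    have h2 : ∀ᵐ t : ℝ, t ≠ bt K w := by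
      rw [ae_iff]; simp
    filter_upwards [h2] with t ht
    exact h1 t ht

end Pool.Agent.V11188.EB
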