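import Pool.Agent.V11188.EB.A

/-!
# Inequalities on a chord
-/

set_option autoImplicit false
set_option linter.unusedSectionVars false

namespace Pool.Agent.V11188.EB

open MeasureTheory Set Filter Topology
open scoped ENNReal InnerProductSpace

theorem mono_deriv {f : ℝ → ℝ} {a b : ℝ} (hab : a ≤ b) (hf : MonotoneOn f (Icc a b)) :
    ∫⁻ x in Icc a b, ‖deriv f x‖ₑ ≤ ENNReal.ofReal (f b - f a) := by
  obtain ⟨G, hGf, hG, hG'⟩ := hf.exists_tendsto_deriv_liminf_lintegral_enorm_le hab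
  refine le_trans ?_ hG'
  exact lintegral_enorm_le_liminf_of_tendsto hGf (fun n => (hG n).aemeasurable.enorm)

theorem anti_deriv {f : ℝ → ℝ} {a b : ℝ} (hab : a ≤ b) (hf : AntitoneOn f (Icc a b)) :
    ∫⁻ x in Icc a b, ‖deriv f x‖ₑ ≤ ENNReal.ofReal (f a - f b) := by
  have h1 := mono_deriv hab hf.neg
  have e1 : ∀ x, ‖deriv (-f) x‖ₑ = ‖deriv f x‖ₑ := by
    intro x
    rw [deriv.neg, enorm_neg]
  have h2 : ∫⁻ x in Icc a b, ‖deriv f x‖ₑ ≤ ENNReal.ofReal ((-f) b - (-f) a) := by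
    calc ∫⁻ x in Icc a b, ‖deriv f x‖ₑ = ∫⁻ x in Icc a b, ‖deriv (-f) x‖ₑ :=
          lintegral_congr fun x => (e1 x).symm
      _ ≤ _ := h1
  refine h2.trans (ENNReal.ofReal_le_ofReal ?_)
  show -f b - -f a ≤ f a - f b
  linarith

/-- the square of a nonnegative convex function on a chord -/
theorem sq_deriv {g : ℝ → ℝ} (hg : ConvexOn ℝ univ g) (h0 : ∀ t, 0 ≤ g t) {a b : ℝ} (hab : a < b) :
    ∫⁻ x in Icc a b, ‖deriv (fun t => g t ^ 2) x‖ₑ ≤ ENNReal.ofReal (g a ^ 2 + g b ^ 2) := by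
  have hcont : ContinuousOn g univ := hg.continuousOn isOpen_univ
  obtain ⟨c, hc, hmin⟩ := isCompact_Icc.exists_isMinOn (nonempty_Icc.2 hab.le)
    (hcont.mono (subset_univ (Icc a b)))
  have hm1 : MonotoneOn (fun t => g t ^ 2) (Icc c b) := by
    intro x hx y hy hxy
    have h1 := hg.le_max_of_mem_Icc (x := c) (y := y) (z := x) trivial trivial ⟨hx.1, hxy⟩
    have h2 : g c ≤ g y := hmin ⟨hc.1.trans hy.1, hy.2⟩
    rw [max_eq_right h2] at h1
    exact pow_le_pow_left₀ (h0 x) h1 2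
  have hm2 : AntitoneOn (fun t => g t ^ 2) (Icc a c) := by
    intro x hx y hy hxy
    have h1 := hg.le_max_of_mem_Icc (x := x) (y := c) (z := y) trivial trivial ⟨hxy, hy.2⟩
    have h2 : g c ≤ g x := hmin ⟨hx.1, hx.2.trans hc.2⟩
    rw [max_eq_left h2] at h1
    exact pow_le_pow_left₀ (h0 y) h1 2
  have h1 := mono_deriv hc.2 hm1
  have h2 := anti_deriv hc.1 hm2
  have h3 : Icc a b ⊆ Icc a c ∪ Icc c b := by
    rw [Icc_union_Icc_eq_Icc hc.1 hc.2]
  calc ∫⁻ x in Icc a b, ‖deriv (fun t => g t ^ 2) x‖ₑ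
      ≤ ∫⁻ x in Icc a c ∪ Icc c b, ‖deriv (fun t => g t ^ 2) x‖ₑ := lintegral_mono_set h3
    _ ≤ (∫⁻ x in Icc a c, ‖deriv (fun t => g t ^ 2) x‖ₑ) +
        ∫⁻ x in Icc c b, ‖deriv (fun t => g t ^ 2) x‖ₑ := lintegral_union_le _ _ _
    _ ≤ ENNReal.ofReal (g a ^ 2 - g c ^ 2) + ENNReal.ofReal (g b ^ 2 - g c ^ 2) := add_le_add h2 h1
    _ = ENNReal.ofReal ((g a ^ 2 - g c ^ 2) + (g b ^ 2 - g c ^ 2)) := by
        rw [ENNReal.ofReal_add]
        · have h4 : g c ≤ g a := hmin ⟨le_rfl, hab.le⟩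
          have := pow_le_pow_left₀ (h0 c) h4 2
          linarith
        · have h4 : g c ≤ g b := hmin ⟨hab.le, le_rfl⟩
          have := pow_le_pow_left₀ (h0 c) h4 2
          linarith
    _ ≤ ENNReal.ofReal (g a ^ 2 + g b ^ 2) := by
        apply ENNReal.ofReal_le_ofReal
        have := sq_nonneg (g c)
        linarith

/-- trapezoid bound -/
theorem trap {g : ℝ → ℝ} (hg : ConvexOn ℝ univ g) {a b : ℝ} (hab : a < b) :
    ∫⁻ x in Icc a b, ENNReal.ofReal (g x) ≤
      ENNReal.ofReal ((b - a) * ((g a + g b) / 2)) ∨ ∃ t, g t < 0 := by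
  by_cases hneg : ∃ t, g t < 0
  · exact Or.inr hneg
  left
  push Not at hneg
  have hba : 0 < b - a := by linarith
  have h1 : ∀ x ∈ Icc a b, ENNReal.ofReal (g x) ≤
      ENNReal.ofReal ((b - x) / (b - a) * g a + (x - a) / (b - a) * g b) := by
    intro x hx
    apply ENNReal.ofReal_le_ofReal
    have h20 : 0 ≤ (b - x) / (b - a) := div_nonneg (by linarith [hx.2]) hba.le
    have h21 : 0 ≤ (x - a) / (b - a) := div_nonneg (by linarith [hx.1]) hba.le
    have h22 : (b - x) / (b - a) + (x - a) / (b - a) = 1 := by field_simp; ring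
    have h2 := hg.2 (mem_univ a) (mem_univ b) h20 h21 h22
    have e : ((b - x) / (b - a)) • a + ((x - a) / (b - a)) • b = x := by
      simp only [smul_eq_mul]
      field_simp
      ring
    rw [e] at h2
    simpa using h2
  refine (setLIntegral_mono' measurableSet_Icc h1).trans ?_
  have h3 : IntegrableOn (fun x => (b - x) / (b - a) * g a + (x - a) / (b - a) * g b) (Icc a b) := by
    apply Continuous.integrableOn_Icc
    fun_prop
  rw [← ofReal_integral_eq_lintegral_ofReal h3]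
  · apply ENNReal.ofReal_le_ofReal
    apply le_of_eq
    rw [integral_Icc_eq_integral_Ioc, ← intervalIntegral.integral_of_le hab.le]
    rw [intervalIntegral.integral_add, intervalIntegral.integral_mul_const,
      intervalIntegral.integral_mul_const, intervalIntegral.integral_div,
      intervalIntegral.integral_div, intervalIntegral.integral_sub, intervalIntegral.integral_sub]
    · simp only [intervalIntegral.integral_const, integral_id, smul_eq_mul]
      field_simp
      ring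
    all_goals
      apply Continuous.intervalIntegrable
      fun_prop
  · rw [EventuallyLE, ae_restrict_iff' measurableSet_Icc]
    refine Eventually.of_forall fun x hx => ?_
    have h4 := hneg a
    have h5 := hneg b
    have h6 : 0 ≤ b - x := by linarith [hx.2]
    have h7 : 0 ≤ x - a := by linarith [hx.1]
    simp only [Pi.zero_apply]
    positivity

theorem trap' {g : ℝ → ℝ} (hg : ConvexOn ℝ univ g) (h0 : ∀ t, 0 ≤ g t) {a b : ℝ} (hab : a < b) :
    ∫⁻ x in Icc a b, ENNReal.ofReal (g x) ≤ ENNReal.ofReal ((b - a) * ((g a + g b) / 2)) := by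
  rcases trap hg hab with h | ⟨t, ht⟩
  · exact h
  · exact absurd ht (not_lt.2 (h0 t))

variable {V : Type*} [NormedAddCommGroup V] [InnerProductSpace ℝ V] [FiniteDimensional ℝ V]
  [MeasurableSpace V] [BorelSpace V]

theorem line_convex {h : V → ℝ} (hh : ConvexOn ℝ univ h) (θ w : V) :
    ConvexOn ℝ univ (fun t : ℝ => h (t • θ + w)) := by
  refine ⟨convex_univ, fun s _ t _ a b ha hb hab => ?_⟩
  have h1 := hh.2 (mem_univ (s • θ + w)) (mem_univ (t • θ + w)) ha hb hab
  have e : a • (s • θ + w) + b • (t • θ + w) = (a • s + b • t) • θ + w := by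
    rw [smul_add, smul_add, smul_smul, smul_smul, add_smul, smul_eq_mul, smul_eq_mul]
    have : a • w + b • w = w := by rw [← add_smul, hab, one_smul]
    calc _ = (a * s) • θ + (b * t) • θ + (a • w + b • w) := by abel
      _ = _ := by rw [this]
  rw [e] at h1
  exact h1

/-- the chord inequality for the directional derivative -/
theorem chord_deriv {h : V → ℝ} (hh : ConvexOn ℝ univ h) (h0 : ∀ z, 0 ≤ h z) (θ w : V) {a b : ℝ}
    (hab : a < b) :
    ∫⁻ t in Icc a b, ENNReal.ofReal (h (t • θ + w) * |fderiv ℝ h (t • θ + w) θ|) ≤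
      ENNReal.ofReal (1 / 2 * h (a • θ + w) ^ 2) + ENNReal.ofReal (1 / 2 * h (b • θ + w) ^ 2) := by
  have h1 := sq_deriv (line_convex hh θ w) (fun t => h0 _) hab
  have h2 : ∀ t, ENNReal.ofReal (h (t • θ + w) * |fderiv ℝ h (t • θ + w) θ|) ≤
      ENNReal.ofReal (1 / 2) * ‖deriv (fun t : ℝ => h (t • θ + w) ^ 2) t‖ₑ := by
    intro t
    by_cases hd : DifferentiableAt ℝ h (t • θ + w)
    · have hl : HasDerivAt (fun t : ℝ => t • θ + w) θ t := by
        have := ((hasDerivAt_id t).smul_const θ).add_const w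
        simpa using this
      have h3 : HasDerivAt (fun t : ℝ => h (t • θ + w)) (fderiv ℝ h (t • θ + w) θ) t :=
        hd.hasFDerivAt.comp_hasDerivAt t hl
      have h4 := (h3.pow 2).deriv
      have h5 : deriv (fun t : ℝ => h (t • θ + w) ^ 2) t =
          2 * h (t • θ + w) * fderiv ℝ h (t • θ + w) θ := by
        have : (fun t : ℝ => h (t • θ + w) ^ 2) = (fun t : ℝ => h (t • θ + w)) ^ 2 := rfl
        rw [this, h4]
        ring
      rw [h5, Real.enorm_eq_ofReal_abs, ← ENNReal.ofReal_mul (by norm_num)]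
      apply ENNReal.ofReal_le_ofReal
      rw [abs_mul, abs_mul, abs_of_nonneg (h0 _), abs_of_pos (by norm_num : (0:ℝ) < 2)]
      apply le_of_eq
      ring
    · rw [fderiv_zero_of_not_differentiableAt hd]
      simp
  refine (lintegral_mono h2).trans ?_
  rw [lintegral_const_mul' _ _ ENNReal.ofReal_ne_top]
  refine (mul_le_mul_right h1 _).trans ?_
  rw [← ENNReal.ofReal_mul (by norm_num), ← ENNReal.ofReal_add (by positivity) (by positivity)]
  apply ENNReal.ofReal_le_ofReal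
  apply le_of_eq
  ring

/-- the chord inequality for the function itself -/
theorem chord_val {h : V → ℝ} (hh : ConvexOn ℝ univ h) (h0 : ∀ z, 0 ≤ h z) (θ w : V)
    (hθ : ‖θ‖ = 1) (s : ℝ) (hs : 0 < s) {a b : ℝ} (hab : a < b) :
    ∫⁻ t in Icc a b, ENNReal.ofReal (h (t • θ + w)) ≤
      ENNReal.ofReal (1 / (2 * s) * (⟪θ, a • θ + w⟫_ℝ ^ 2 + s ^ 2 * h (a • θ + w) ^ 2)) +
      ENNReal.ofReal (1 / (2 * s) * (⟪θ, b • θ + w⟫_ℝ ^ 2 + s ^ 2 * h (b • θ + w) ^ 2)) := by
  have h1 := trap' (line_convex hh θ w) (fun t => h0 _) hab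
  refine h1.trans ?_
  rw [← ENNReal.ofReal_add (by positivity) (by positivity)]
  apply ENNReal.ofReal_le_ofReal
  have e : ∀ t : ℝ, ⟪θ, t • θ + w⟫_ℝ = t + ⟪θ, w⟫_ℝ := by
    intro t
    rw [inner_add_right, inner_smul_right, real_inner_self_eq_norm_sq, hθ]
    ring
  rw [e, e]
  set A := a + ⟪θ, w⟫_ℝ with hA
  set B := b + ⟪θ, w⟫_ℝ with hB
  have hBA : b - a = B - A := by rw [hA, hB]; ring
  rw [hBA]
  set P := h (a • θ + w)
  set Q := h (b • θ + w)
  have e2 : (B - A) * ((P + Q) / 2) = 1 / (2 * s) * ((B - A) * (s * (P + Q))) := by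
    field_simp
  rw [e2, ← mul_add]
  apply mul_le_mul_of_nonneg_left _ (by positivity)
  nlinarith [sq_nonneg (B - A - s * (P + Q)), sq_nonneg (A + B), sq_nonneg (s * (P - Q))]

end Pool.Agent.V11188.EB
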