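import Pool.Agent.V11188.EB.B

/-!
# Assembling the boundary inequality
-/

set_option autoImplicit false
set_option linter.unusedSectionVars false

namespace Pool.Agent.V11188.EB

open MeasureTheory Set Filter Topology
open scoped ENNReal InnerProductSpace

/-- the planar inequality -/
theorem planar (a b : ℝ) : Real.sqrt (a ^ 2 + b ^ 2) ≤
    (Real.sqrt 2 - 1) * (|a| + |b| + (Real.sqrt 2)⁻¹ * (|a + b| + |a - b|)) := by
  have h2 : Real.sqrt 2 ^ 2 = 2 := Real.sq_sqrt (by norm_num)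
  have h2' : 1 < Real.sqrt 2 := by
    rw [Real.lt_sqrt (by norm_num)]; norm_num
  have hinv : (Real.sqrt 2)⁻¹ = Real.sqrt 2 / 2 := by
    field_simp
    linarith
  have hmax : |a + b| + |a - b| = 2 * max |a| |b| := by
    rcases abs_cases (a + b) with h | h <;> rcases abs_cases (a - b) with h' | h' <;>
      rcases abs_cases a with h3 | h3 <;> rcases abs_cases b with h4 | h4 <;>
      rcases max_cases |a| |b| with h5 | h5 <;> linarith
  have key : ∀ x y : ℝ, 0 ≤ x → 0 ≤ y → y ≤ x →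
      Real.sqrt (x ^ 2 + y ^ 2) ≤ x + (Real.sqrt 2 - 1) * y := by
    intro x y hx hy hyx
    apply Real.sqrt_le_iff.2
    refine ⟨by have : 0 ≤ (Real.sqrt 2 - 1) * y := mul_nonneg (by linarith) hy
               linarith, ?_⟩
    have h3 : 0 ≤ (Real.sqrt 2 - 1) * (y * (x - y)) :=
      mul_nonneg (by linarith) (mul_nonneg hy (by linarith))
    nlinarith
  rw [hmax, hinv]
  have e1 : a ^ 2 + b ^ 2 = |a| ^ 2 + |b| ^ 2 := by rw [sq_abs, sq_abs]
  rw [e1]
  rcases le_total |b| |a| with h | h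
  · rw [max_eq_left h]
    have h3 := key |a| |b| (abs_nonneg _) (abs_nonneg _) h
    have h4 : (Real.sqrt 2 - 1) * (|a| + |b| + Real.sqrt 2 / 2 * (2 * |a|)) =
        |a| + (Real.sqrt 2 - 1) * |b| + (Real.sqrt 2 ^ 2 - 2) * |a| := by ring
    rw [h4, h2]
    linarith
  · rw [max_eq_right h]
    have h3 := key |b| |a| (abs_nonneg _) (abs_nonneg _) h
    have h4 : (Real.sqrt 2 - 1) * (|a| + |b| + Real.sqrt 2 / 2 * (2 * |b|)) =
        |b| + (Real.sqrt 2 - 1) * |a| + (Real.sqrt 2 ^ 2 - 2) * |b| := by ring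
    rw [h4, h2, add_comm (|a| ^ 2)]
    linarith

/-- coordinate unit vectors -/
noncomputable def ei {d : ℕ} (i : Fin d) : EuclideanSpace ℝ (Fin d) := EuclideanSpace.single i 1

/-- diagonal unit vectors -/
noncomputable def fp {d : ℕ} (i j : Fin d) : EuclideanSpace ℝ (Fin d) :=
  (Real.sqrt 2)⁻¹ • (ei i + ei j)

/-- diagonal unit vectors -/
noncomputable def fm {d : ℕ} (i j : Fin d) : EuclideanSpace ℝ (Fin d) :=
  (Real.sqrt 2)⁻¹ • (ei i - ei j)

theorem ei_norm {d : ℕ} (i : Fin d) : ‖ei i‖ = 1 := by simp [ei]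

theorem ei_inner {d : ℕ} (i j : Fin d) (h : i ≠ j) : ⟪ei i, ei j⟫_ℝ = 0 := by
  simp [ei, EuclideanSpace.inner_single_left, h.symm]

theorem fp_norm {d : ℕ} (i j : Fin d) (h : i ≠ j) : ‖fp i j‖ = 1 := by
  have h1 : ‖(ei i + ei j : EuclideanSpace ℝ (Fin d))‖ ^ 2 = 2 := by
    rw [@norm_add_sq_real, ei_norm, ei_norm, ei_inner i j h]
    norm_num
  have h2 : ‖(ei i + ei j : EuclideanSpace ℝ (Fin d))‖ = Real.sqrt 2 := by
    rw [← h1, Real.sqrt_sq (norm_nonneg _)]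
  unfold fp
  rw [norm_smul, h2, norm_inv, Real.norm_of_nonneg (Real.sqrt_nonneg _)]
  apply inv_mul_cancel₀
  positivity

theorem fm_norm {d : ℕ} (i j : Fin d) (h : i ≠ j) : ‖fm i j‖ = 1 := by
  have h1 : ‖(ei i - ei j : EuclideanSpace ℝ (Fin d))‖ ^ 2 = 2 := by
    rw [@norm_sub_sq_real, ei_norm, ei_norm, ei_inner i j h]
    norm_num
  have h2 : ‖(ei i - ei j : EuclideanSpace ℝ (Fin d))‖ = Real.sqrt 2 := by
    rw [← h1, Real.sqrt_sq (norm_nonneg _)]
  unfold fm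
  rw [norm_smul, h2, norm_inv, Real.norm_of_nonneg (Real.sqrt_nonneg _)]
  apply inv_mul_cancel₀
  positivity

theorem sum_offDiag_sq {d : ℕ} (u : Fin d → ℝ) :
    ∑ p ∈ (Finset.univ : Finset (Fin d)).offDiag, (u p.1 ^ 2 + u p.2 ^ 2) =
      2 * ((d : ℝ) - 1) * ∑ i, u i ^ 2 := by
  have h1 : ∑ p ∈ (Finset.univ : Finset (Fin d)).diag, (u p.1 ^ 2 + u p.2 ^ 2) +
      ∑ p ∈ (Finset.univ : Finset (Fin d)).offDiag, (u p.1 ^ 2 + u p.2 ^ 2) =
      ∑ p ∈ (Finset.univ : Finset (Fin d)) ×ˢ (Finset.univ : Finset (Fin d)), (u p.1 ^ 2 + u p.2 ^ 2) := by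
    rw [← Finset.sum_union (Finset.disjoint_diag_offDiag _), Finset.diag_union_offDiag]
  have h2 : ∑ p ∈ (Finset.univ : Finset (Fin d)).diag, (u p.1 ^ 2 + u p.2 ^ 2) =
      2 * ∑ i, u i ^ 2 := by
    rw [Finset.sum_diag, Finset.mul_sum]
    exact Finset.sum_congr rfl fun i _ => by ring
  have h3 : ∑ p ∈ (Finset.univ : Finset (Fin d)) ×ˢ (Finset.univ : Finset (Fin d)), (u p.1 ^ 2 + u p.2 ^ 2)
      = 2 * d * ∑ i, u i ^ 2 := by
    rw [Finset.sum_product]
    simp only [Finset.sum_add_distrib, Finset.sum_const, Finset.card_univ, Fintype.card_fin,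
      nsmul_eq_mul]
    rw [← Finset.mul_sum]
    ring
  linarith

/-- the norm of a functional from finitely many directions -/
theorem norm_le_dirs {d : ℕ} (hd : 2 ≤ d) (L : EuclideanSpace ℝ (Fin d) →L[ℝ] ℝ) :
    ‖L‖ ≤ (Real.sqrt 2 - 1) / (2 * ((d : ℝ) - 1)) *
      ∑ p ∈ (Finset.univ : Finset (Fin d)).offDiag,
        (|L (ei p.1)| + |L (ei p.2)| + |L (fp p.1 p.2)| + |L (fm p.1 p.2)|) := by
  have hd1 : (0:ℝ) < (d : ℝ) - 1 := by
    have : (2:ℝ) ≤ d := by exact_mod_cast hd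
    linarith
  obtain ⟨v, hv⟩ := (InnerProductSpace.toDual ℝ (EuclideanSpace ℝ (Fin d))).surjective L
  have hn : ‖L‖ ^ 2 = ∑ i, L (ei i) ^ 2 := by
    rw [← hv, LinearIsometryEquiv.norm_map, EuclideanSpace.real_norm_sq_eq]
    refine Finset.sum_congr rfl fun i _ => ?_
    simp [ei, EuclideanSpace.inner_single_right]
  set N : Fin d × Fin d → ℝ := fun p => Real.sqrt (L (ei p.1) ^ 2 + L (ei p.2) ^ 2) with hN
  have hNle : ∀ p ∈ (Finset.univ : Finset (Fin d)).offDiag, N p ≤ (Real.sqrt 2 - 1) *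
      (|L (ei p.1)| + |L (ei p.2)| + |L (fp p.1 p.2)| + |L (fm p.1 p.2)|) := by
    intro p _
    have h1 := planar (L (ei p.1)) (L (ei p.2))
    have h2 : |L (fp p.1 p.2)| + |L (fm p.1 p.2)| =
        (Real.sqrt 2)⁻¹ * (|L (ei p.1) + L (ei p.2)| + |L (ei p.1) - L (ei p.2)|) := by
      unfold fp fm
      rw [map_smul, map_smul, map_add, map_sub, smul_eq_mul, smul_eq_mul, abs_mul, abs_mul,
        abs_of_nonneg (inv_nonneg.2 (Real.sqrt_nonneg _))]
      ring
    have h3 : |L (ei p.1)| + |L (ei p.2)| + |L (fp p.1 p.2)| + |L (fm p.1 p.2)| =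
        |L (ei p.1)| + |L (ei p.2)| + (|L (fp p.1 p.2)| + |L (fm p.1 p.2)|) := by ring
    rw [h3, h2]
    exact h1
  have hNn : ∀ p ∈ (Finset.univ : Finset (Fin d)).offDiag,
      L (ei p.1) ^ 2 + L (ei p.2) ^ 2 ≤ ‖L‖ * N p := by
    intro p hp
    have hne : p.1 ≠ p.2 := (Finset.mem_offDiag.1 hp).2.2
    have h1 : L (ei p.1) ^ 2 + L (ei p.2) ^ 2 ≤ ‖L‖ ^ 2 := by
      rw [hn]
      have : ∑ i ∈ ({p.1, p.2} : Finset (Fin d)), L (ei i) ^ 2 ≤ ∑ i, L (ei i) ^ 2 :=
        Finset.sum_le_sum_of_subset_of_nonneg (Finset.subset_univ _) fun i _ _ => sq_nonneg _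
      rwa [Finset.sum_pair hne] at this
    have h2 : N p ≤ ‖L‖ := by
      rw [hN]
      exact Real.sqrt_le_iff.2 ⟨norm_nonneg _, h1⟩
    have h3 : N p ^ 2 = L (ei p.1) ^ 2 + L (ei p.2) ^ 2 := Real.sq_sqrt (by positivity)
    have h4 : 0 ≤ N p := Real.sqrt_nonneg _
    nlinarith
  have h5 := Finset.sum_le_sum hNn
  rw [sum_offDiag_sq (fun i => L (ei i)), ← hn, ← Finset.mul_sum] at h5
  have h6 := Finset.sum_le_sum hNle
  rw [← Finset.mul_sum] at h6
  set S := ∑ p ∈ (Finset.univ : Finset (Fin d)).offDiag,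
        (|L (ei p.1)| + |L (ei p.2)| + |L (fp p.1 p.2)| + |L (fm p.1 p.2)|) with hS
  rcases (norm_nonneg L).eq_or_lt with h0 | h0
  · rw [← h0]
    have h2' : 1 < Real.sqrt 2 := by
      rw [Real.lt_sqrt (by norm_num)]; norm_num
    have : 0 ≤ S := Finset.sum_nonneg fun p _ => by positivity
    have h7 : 0 ≤ Real.sqrt 2 - 1 := by linarith
    positivity
  · have h7 : 2 * ((d:ℝ) - 1) * ‖L‖ ≤ ∑ p ∈ (Finset.univ : Finset (Fin d)).offDiag, N p := by
      have h8 : ‖L‖ * (2 * ((d:ℝ) - 1) * ‖L‖) ≤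
          ‖L‖ * ∑ p ∈ (Finset.univ : Finset (Fin d)).offDiag, N p := by
        calc ‖L‖ * (2 * ((d:ℝ) - 1) * ‖L‖) = 2 * ((d:ℝ) - 1) * ‖L‖ ^ 2 := by ring
          _ ≤ _ := h5
      exact le_of_mul_le_mul_left h8 h0
    rw [div_mul_eq_mul_div, le_div_iff₀ (by positivity)]
    linarith

section main
variable {d : ℕ}

theorem conv_cont {h : EuclideanSpace ℝ (Fin d) → ℝ} (hh : ConvexOn ℝ univ h) : Continuous h :=
  continuousOn_univ.1 (hh.continuousOn isOpen_univ)

/-- the directional part -/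
theorem dir_le (hd : 2 ≤ d) {h : EuclideanSpace ℝ (Fin d) → ℝ} (hh : ConvexOn ℝ univ h)
    (h0 : ∀ z, 0 ≤ h z) {C : Set (EuclideanSpace ℝ (Fin d))} (hC : IsCompact C)
    (hc : Convex ℝ C) (θ : EuclideanSpace ℝ (Fin d)) (hθ : ‖θ‖ = 1) :
    ∫⁻ z in C, ENNReal.ofReal (h z * |fderiv ℝ h z θ|) ≤
      ∫⁻ y in frontier C, ENNReal.ofReal (1 / 2 * h y ^ 2)
        ∂(Measure.euclideanHausdorffMeasure (d - 1) : Measure (EuclideanSpace ℝ (Fin d))) := by
  have hcont := conv_cont hh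
  refine slice_le (d - 1) (by simp; omega) θ hθ C hC hc _ _ ?_ ?_ ?_
  · have h1 := measurable_fderiv_apply_const ℝ h θ
    have h2 := hcont.measurable
    fun_prop
  · have h2 := hcont.measurable
    fun_prop
  · intro w a b hab
    exact chord_deriv hh h0 θ w hab

/-- the gradient part -/
theorem grad_le (hd : 2 ≤ d) {h : EuclideanSpace ℝ (Fin d) → ℝ} (hh : ConvexOn ℝ univ h)
    (h0 : ∀ z, 0 ≤ h z) {C : Set (EuclideanSpace ℝ (Fin d))} (hC : IsCompact C)
    (hc : Convex ℝ C) :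
    ENNReal.ofReal (2 / d) * ∫⁻ z in C, ENNReal.ofReal (h z * ‖fderiv ℝ h z‖) ≤
      ∫⁻ y in frontier C, ENNReal.ofReal (2 * (Real.sqrt 2 - 1) * h y ^ 2)
        ∂(Measure.euclideanHausdorffMeasure (d - 1) : Measure (EuclideanSpace ℝ (Fin d))) := by
  have hcont := conv_cont hh
  have hd2 : (2:ℝ) ≤ d := by exact_mod_cast hd
  have h2' : 1 < Real.sqrt 2 := by
    rw [Real.lt_sqrt (by norm_num)]; norm_num
  set c : ℝ := (Real.sqrt 2 - 1) / (2 * ((d : ℝ) - 1)) with hcd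
  have hc0 : 0 ≤ c := by
    rw [hcd]
    apply div_nonneg <;> linarith
  set β := ∫⁻ y in frontier C, ENNReal.ofReal (1 / 2 * h y ^ 2)
        ∂(Measure.euclideanHausdorffMeasure (d - 1) : Measure (EuclideanSpace ℝ (Fin d))) with hβ
  have hmeas : ∀ θ : EuclideanSpace ℝ (Fin d),
      Measurable (fun z => ENNReal.ofReal (h z * |fderiv ℝ h z θ|)) := by
    intro θ
    have h1 := measurable_fderiv_apply_const ℝ h θ
    have h2 := hcont.measurable
    fun_prop
  have h1 : ∀ z, ENNReal.ofReal (h z * ‖fderiv ℝ h z‖) ≤ ENNReal.ofReal c *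
      ∑ p ∈ (Finset.univ : Finset (Fin d)).offDiag,
        (ENNReal.ofReal (h z * |fderiv ℝ h z (ei p.1)|) +
         ENNReal.ofReal (h z * |fderiv ℝ h z (ei p.2)|) +
         ENNReal.ofReal (h z * |fderiv ℝ h z (fp p.1 p.2)|) +
         ENNReal.ofReal (h z * |fderiv ℝ h z (fm p.1 p.2)|)) := by
    intro z
    have h2 := mul_le_mul_of_nonneg_left (norm_le_dirs hd (fderiv ℝ h z)) (h0 z)
    refine (ENNReal.ofReal_le_ofReal h2).trans (le_of_eq ?_)
    rw [mul_left_comm, ENNReal.ofReal_mul hc0, Finset.mul_sum, ENNReal.ofReal_sum_of_nonneg]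
    · congr 1
      refine Finset.sum_congr rfl fun p _ => ?_
      have h3 := h0 z
      rw [← ENNReal.ofReal_add (by positivity) (by positivity),
        ← ENNReal.ofReal_add (by positivity) (by positivity),
        ← ENNReal.ofReal_add (by positivity) (by positivity)]
      congr 1
      ring
    · intro p _
      have h3 := h0 z
      positivity
  have h3 : ∫⁻ z in C, ENNReal.ofReal (h z * ‖fderiv ℝ h z‖) ≤ ENNReal.ofReal c *
      ∑ p ∈ (Finset.univ : Finset (Fin d)).offDiag, (β + β + β + β) := by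
    refine (lintegral_mono h1).trans ?_
    rw [lintegral_const_mul' _ _ ENNReal.ofReal_ne_top]
    refine mul_le_mul_right ?_ _
    rw [lintegral_finsetSum _ (fun p _ => by
      have a1 := hmeas (ei p.1)
      have a2 := hmeas (ei p.2)
      have a3 := hmeas (fp p.1 p.2)
      have a4 := hmeas (fm p.1 p.2)
      exact ((a1.add a2).add a3).add a4)]
    refine Finset.sum_le_sum fun p hp => ?_
    have hne : p.1 ≠ p.2 := (Finset.mem_offDiag.1 hp).2.2
    rw [lintegral_add_right _ (hmeas _), lintegral_add_right _ (hmeas _),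
      lintegral_add_right _ (hmeas _)]
    exact add_le_add (add_le_add (add_le_add (dir_le hd hh h0 hC hc _ (ei_norm _))
      (dir_le hd hh h0 hC hc _ (ei_norm _))) (dir_le hd hh h0 hC hc _ (fp_norm _ _ hne)))
      (dir_le hd hh h0 hC hc _ (fm_norm _ _ hne))
  have h4 : ∑ p ∈ (Finset.univ : Finset (Fin d)).offDiag, (β + β + β + β) =
      ENNReal.ofReal (4 * (d * ((d : ℝ) - 1))) * β := by
    rw [Finset.sum_const, Finset.offDiag_card, Finset.card_univ, Fintype.card_fin, nsmul_eq_mul]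
    have e1 : β + β + β + β = 4 * β := by ring
    have e2 : ((d * d - d : ℕ) : ℝ≥0∞) = ENNReal.ofReal (d * ((d : ℝ) - 1)) := by
      rw [← ENNReal.ofReal_natCast, Nat.cast_sub (Nat.le_mul_self d)]
      congr 1
      push_cast
      ring
    rw [e1, e2, ENNReal.ofReal_mul (by norm_num : (0:ℝ) ≤ 4), ← mul_assoc, mul_comm (ENNReal.ofReal _) 4]
    congr 2
    simp
  rw [h4] at h3
  refine (mul_le_mul_right h3 _).trans ?_
  rw [← mul_assoc, ← mul_assoc, ← ENNReal.ofReal_mul (by positivity),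
    ← ENNReal.ofReal_mul (by positivity), hβ, ← lintegral_const_mul' _ _ ENNReal.ofReal_ne_top]
  refine lintegral_mono fun y => ?_
  rw [← ENNReal.ofReal_mul (by
    have : 0 ≤ (d:ℝ) - 1 := by linarith
    positivity)]
  apply ENNReal.ofReal_le_ofReal
  apply le_of_eq
  rw [hcd]
  have h5 : (d:ℝ) - 1 ≠ 0 := by linarith
  have h6 : (d:ℝ) ≠ 0 := by linarith
  field_simp
  ring

/-- the value part -/
theorem val_le (hd : 2 ≤ d) {h : EuclideanSpace ℝ (Fin d) → ℝ} (hh : ConvexOn ℝ univ h)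
    (h0 : ∀ z, 0 ≤ h z) {C : Set (EuclideanSpace ℝ (Fin d))} (hC : IsCompact C)
    (hc : Convex ℝ C) :
    ENNReal.ofReal (2 / d) * ∫⁻ z in C, ENNReal.ofReal (h z) ≤
      ∫⁻ y in frontier C, ENNReal.ofReal (‖y‖ ^ 2 + 1 / 8 * h y ^ 2)
        ∂(Measure.euclideanHausdorffMeasure (d - 1) : Measure (EuclideanSpace ℝ (Fin d))) := by
  have hcont := conv_cont hh
  have hd2 : (2:ℝ) ≤ d := by exact_mod_cast hd
  have hd0 : (0:ℝ) < d := by linarith
  set s : ℝ := 1 / (d:ℝ) ^ 2 with hs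
  have hs0 : 0 < s := by positivity
  have h1 : ∀ i : Fin d, ∫⁻ z in C, ENNReal.ofReal (h z) ≤
      ∫⁻ y in frontier C, ENNReal.ofReal (1 / (2 * s) * (⟪ei i, y⟫_ℝ ^ 2 + s ^ 2 * h y ^ 2))
        ∂(Measure.euclideanHausdorffMeasure (d - 1) : Measure (EuclideanSpace ℝ (Fin d))) := by
    intro i
    refine slice_le (d - 1) (by simp; omega) (ei i) (ei_norm i) C hC hc _ _ ?_ ?_ ?_
    · exact ENNReal.measurable_ofReal.comp hcont.measurable
    · have h2 := hcont.measurable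
      have h3 : Measurable (fun y : EuclideanSpace ℝ (Fin d) => ⟪ei i, y⟫_ℝ) := by fun_prop
      fun_prop
    · intro w a b hab
      exact chord_val hh h0 (ei i) w (ei_norm i) s hs0 hab
  have h2 : (d : ℝ≥0∞) * ∫⁻ z in C, ENNReal.ofReal (h z) ≤
      ∫⁻ y in frontier C, ENNReal.ofReal (1 / (2 * s) * (‖y‖ ^ 2 + d * s ^ 2 * h y ^ 2))
        ∂(Measure.euclideanHausdorffMeasure (d - 1) : Measure (EuclideanSpace ℝ (Fin d))) := by
    have h3 := Finset.sum_le_sum fun (i : Fin d) (_ : i ∈ Finset.univ) => h1 i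
    rw [Finset.sum_const, Finset.card_univ, Fintype.card_fin, nsmul_eq_mul] at h3
    refine h3.trans (le_of_eq ?_)
    rw [← lintegral_finsetSum _ (fun i _ => by
      have h2 := hcont.measurable
      have h3 : Measurable (fun y : EuclideanSpace ℝ (Fin d) => ⟪ei i, y⟫_ℝ) := by fun_prop
      fun_prop)]
    refine lintegral_congr fun y => ?_
    rw [← ENNReal.ofReal_sum_of_nonneg (fun i _ => by positivity), ← Finset.mul_sum,
      Finset.sum_add_distrib, Finset.sum_const, Finset.card_univ, Fintype.card_fin, nsmul_eq_mul,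
      EuclideanSpace.real_norm_sq_eq]
    have e : ∀ i, ⟪ei i, y⟫_ℝ = y i := by
      intro i
      simp [ei, EuclideanSpace.inner_single_left]
    simp_rw [e]
    congr 2
    ring
  have h3 : ENNReal.ofReal (2 / d) * ∫⁻ z in C, ENNReal.ofReal (h z) =
      ENNReal.ofReal (2 / d ^ 2) * ((d : ℝ≥0∞) * ∫⁻ z in C, ENNReal.ofReal (h z)) := by
    rw [← mul_assoc]
    congr 1
    rw [← ENNReal.ofReal_natCast, ← ENNReal.ofReal_mul (by positivity)]
    congr 1
    field_simp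
  rw [h3]
  refine (mul_le_mul_right h2 _).trans ?_
  rw [← lintegral_const_mul' _ _ ENNReal.ofReal_ne_top]
  refine lintegral_mono fun y => ?_
  rw [← ENNReal.ofReal_mul (by positivity)]
  apply ENNReal.ofReal_le_ofReal
  have e : 2 / (d:ℝ) ^ 2 * (1 / (2 * s) * (‖y‖ ^ 2 + d * s ^ 2 * h y ^ 2)) =
      ‖y‖ ^ 2 + 1 / (d:ℝ) ^ 3 * h y ^ 2 := by
    rw [hs]
    field_simp
  rw [e]
  have h8 : (8:ℝ) ≤ (d:ℝ) ^ 3 := by
    calc (8:ℝ) = 2 ^ 3 := by norm_num
      _ ≤ (d:ℝ) ^ 3 := pow_le_pow_left₀ (by norm_num) hd2 3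
  have h9 : 1 / (d:ℝ) ^ 3 ≤ 1 / 8 := one_div_le_one_div_of_le (by norm_num) h8
  have := mul_le_mul_of_nonneg_right h9 (sq_nonneg (h y))
  linarith

/-- **The boundary inequality.** -/
theorem boundary (hd : 2 ≤ d) {h : EuclideanSpace ℝ (Fin d) → ℝ} (hh : ConvexOn ℝ univ h)
    (h0 : ∀ z, 0 ≤ h z) {C : Set (EuclideanSpace ℝ (Fin d))} (hC : IsCompact C)
    (hc : Convex ℝ C) :
    ENNReal.ofReal (2 / d) * ∫⁻ z in C, ENNReal.ofReal (h z * Real.sqrt (1 + ‖fderiv ℝ h z‖ ^ 2)) ≤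
      ∫⁻ y in frontier C, ENNReal.ofReal (‖y‖ ^ 2 + h y ^ 2)
        ∂(Measure.euclideanHausdorffMeasure (d - 1) : Measure (EuclideanSpace ℝ (Fin d))) := by
  have hcont := conv_cont hh
  have h1 : ∀ z, ENNReal.ofReal (h z * Real.sqrt (1 + ‖fderiv ℝ h z‖ ^ 2)) ≤
      ENNReal.ofReal (h z) + ENNReal.ofReal (h z * ‖fderiv ℝ h z‖) := by
    intro z
    have hz := h0 z
    rw [← ENNReal.ofReal_add hz (by positivity)]
    apply ENNReal.ofReal_le_ofReal
    have h2 : Real.sqrt (1 + ‖fderiv ℝ h z‖ ^ 2) ≤ 1 + ‖fderiv ℝ h z‖ := by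
      apply Real.sqrt_le_iff.2
      have := norm_nonneg (fderiv ℝ h z)
      constructor
      · positivity
      · nlinarith
    calc h z * Real.sqrt (1 + ‖fderiv ℝ h z‖ ^ 2) ≤ h z * (1 + ‖fderiv ℝ h z‖) :=
          mul_le_mul_of_nonneg_left h2 hz
      _ = h z + h z * ‖fderiv ℝ h z‖ := by ring
  calc ENNReal.ofReal (2 / d) * ∫⁻ z in C, ENNReal.ofReal (h z * Real.sqrt (1 + ‖fderiv ℝ h z‖ ^ 2))
      ≤ ENNReal.ofReal (2 / d) * ∫⁻ z in C, (ENNReal.ofReal (h z) +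
          ENNReal.ofReal (h z * ‖fderiv ℝ h z‖)) := mul_le_mul_right (lintegral_mono h1) _
    _ = ENNReal.ofReal (2 / d) * (∫⁻ z in C, ENNReal.ofReal (h z)) +
        ENNReal.ofReal (2 / d) * ∫⁻ z in C, ENNReal.ofReal (h z * ‖fderiv ℝ h z‖) := by
        rw [lintegral_add_left (f := fun z => ENNReal.ofReal (h z))
          (ENNReal.measurable_ofReal.comp hcont.measurable), mul_add]
    _ ≤ _ := add_le_add (val_le hd hh h0 hC hc) (grad_le hd hh h0 hC hc)
    _ = ∫⁻ y in frontier C, (ENNReal.ofReal (‖y‖ ^ 2 + 1 / 8 * h y ^ 2) +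
          ENNReal.ofReal (2 * (Real.sqrt 2 - 1) * h y ^ 2))
        ∂(Measure.euclideanHausdorffMeasure (d - 1) : Measure (EuclideanSpace ℝ (Fin d))) := by
        rw [lintegral_add_left]
        have h2 := hcont.measurable
        fun_prop
    _ ≤ _ := by
        refine lintegral_mono fun y => ?_
        have h2' : 1 < Real.sqrt 2 := by
          rw [Real.lt_sqrt (by norm_num)]; norm_num
        have h3 : Real.sqrt 2 ≤ 1.43 := by
          rw [Real.sqrt_le_iff]; norm_num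
        have h4 : 0 ≤ Real.sqrt 2 - 1 := by linarith
        rw [← ENNReal.ofReal_add (by positivity) (by positivity)]
        apply ENNReal.ofReal_le_ofReal
        have h5 : (1 / 8 + 2 * (Real.sqrt 2 - 1)) * h y ^ 2 ≤ 1 * h y ^ 2 :=
          mul_le_mul_of_nonneg_right (by linarith) (sq_nonneg _)
        linarith

end main

end Pool.Agent.V11188.EB
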